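import Pool.Agent.helper82.T6.SpecL2

/-!
# Row t6:EE of MP_16912e_nt: case II
-/

set_option autoImplicit false

namespace Pool.Agent.T6

open Finset Pool.Agent.helper3.FT

open Classical in
theorem EE_cov (b : ℝ) (y u K : ℕ) (s : ℝ) : SII b y u s ⊆
    ((PR y u).filter (fun p => (2 : ℝ) ^ ((u : ℝ) / 50) < prt (j0 K u) p.1) ∪
      (PR y u).filter (fun p => ∃ l : ℕ, l.Prime ∧ l ^ 2 ∣ p.1 ∧ j0 K u ≤ Nat.log 2 l)) ∪
    ((SII b y u s).filter (fun p => (prt (j0 K u) p.1 : ℝ) ≤ (2 : ℝ) ^ ((u : ℝ) / 50) ∧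
      ∀ l : ℕ, l.Prime → l ∣ p.1 → Nat.log 2 l < j0 K u ∨ u / 100 ≤ Nat.log 2 l) ∪
    (SII b y u s).filter (fun p => (prt (j0 K u) p.1 : ℝ) ≤ (2 : ℝ) ^ ((u : ℝ) / 50) ∧
      (∀ l : ℕ, l.Prime → j0 K u ≤ Nat.log 2 l → ¬ l ^ 2 ∣ p.1) ∧
      ∃ l : ℕ, l.Prime ∧ l ∣ p.1 ∧ j0 K u ≤ Nat.log 2 l ∧ Nat.log 2 l < u / 100)) := by
  intro p hp
  have hPR : p ∈ PR y u := by
    have h1 : p ∈ SB b y u s := (Finset.mem_filter.1 hp).1
    have h2 : p ∈ SU b y u s := (Finset.mem_filter.1 h1).1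
    exact (Finset.mem_filter.1 h2).1
  by_cases h1 : (2 : ℝ) ^ ((u : ℝ) / 50) < prt (j0 K u) p.1
  · exact Finset.mem_union_left _ (Finset.mem_union_left _ (Finset.mem_filter.2 ⟨hPR, h1⟩))
  by_cases h2 : ∃ l : ℕ, l.Prime ∧ l ^ 2 ∣ p.1 ∧ j0 K u ≤ Nat.log 2 l
  · exact Finset.mem_union_left _ (Finset.mem_union_right _ (Finset.mem_filter.2 ⟨hPR, h2⟩))
  by_cases h3 : ∀ l : ℕ, l.Prime → l ∣ p.1 → Nat.log 2 l < j0 K u ∨ u / 100 ≤ Nat.log 2 l
  · exact Finset.mem_union_right _ (Finset.mem_union_left _ (Finset.mem_filter.2 ⟨hp, not_lt.1 h1, h3⟩))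
  refine Finset.mem_union_right _ (Finset.mem_union_right _ (Finset.mem_filter.2 ⟨hp, not_lt.1 h1, ?_, ?_⟩))
  · intro l hl hj hd
    exact h2 ⟨l, hl, hd, hj⟩
  · push Not at h3
    obtain ⟨l, hl, hd, h4, h5⟩ := h3
    exact ⟨l, hl, hd, h4, h5⟩

open Classical in
theorem EE (hEB : EB_stmt) (hEC : EC_stmt) (hED : ED_stmt) : EE_stmt := by
  intro C₁
  obtain ⟨K₀, hK₀, hB⟩ := hEB C₁
  obtain ⟨CC, yC, hCC, hC⟩ := hEC
  obtain ⟨yD, hD⟩ := hED
  refine ⟨max K₀ 13, le_max_of_le_left hK₀, max yC yD, fun K hK => ?_⟩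
  obtain ⟨CB, hCB, hB⟩ := hB K (le_trans (le_max_left _ _) hK)
  have hC := hC K (le_trans (le_max_right _ _) hK)
  obtain ⟨CD, hCD, hD⟩ := hD K (le_trans (le_max_right _ _) hK)
  refine ⟨CB + CB + (CC + CD), by linarith, fun b y u s hM hy hu hs => ?_⟩
  have hs1 := hM.s1
  have hs0 : 0 < s := by linarith
  obtain ⟨h1, h2⟩ := hB y u s hu hs0 hs
  have h3 := hC b y u s hM (le_trans (le_max_left _ _) hy) hu
  have h4 := hD b y u s hM (le_trans (le_max_right _ _) hy) hu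
  have hc := (Finset.card_le_card (EE_cov b y u K s)).trans ((Finset.card_union_le _ _).trans
    (Nat.add_le_add (Finset.card_union_le _ _) (Finset.card_union_le _ _)))
  have hc' := (Nat.cast_le (α := ℝ)).2 hc
  have h7 : 0 ≤ s ^ 7 := by positivity
  refine (mul_le_mul_of_nonneg_right hc' h7).trans ?_
  push_cast
  rw [add_mul, add_mul, add_mul, add_mul, add_mul, add_mul]
  refine add_le_add (add_le_add h1 h2) (add_le_add ?_ h4)
  refine le_trans ?_ h3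
  refine mul_le_mul_of_nonneg_left ?_ (by positivity)
  exact pow_le_pow_right₀ hs1 (by norm_num)

end Pool.Agent.T6
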